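import Pool.Agent.P8H58.KM.Stm
import Pool.Agent.R674.KB.Main
import Pool.Agent.R674.KB.Dz
import Pool.Agent.P8H58.AW.Fin
import Pool.Agent.P8H58.DL.Fin2

/-!
# Project KM: the alternating sums of Knörr and Robinson modulo an integer
-/

set_option autoImplicit false
set_option linter.unusedSectionVars false

open scoped Classical BigOperators

noncomputable section

namespace Pool.Agent.P8H58.KM

open Pool.Agent.Y63.NV Pool.Agent.N85.WM
open Pool.Agent.Y63.KR (IsPChain chainStabilizer alternatingSum conjSub)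
open Pool.Agent.P8H58.AW (Kr PF)
open Pool.Agent.P8H58.FR (Ecl TopS)

variable {p : ℕ} [hp : Fact p.Prime] {F : Type} [Field F] [IsAlgClosed F] [CharP F p]
  (red : integralClosure ℤ ℂ →+* F)

/-- the congruence modulo `m` for all class functions -/
def Mr {F : Type} [Field F] (p : ℕ) (red : integralClosure ℤ ℂ →+* F) (m : ℤ) (Γ : Type)
    [Group Γ] : Prop :=
  ∀ (z : Γ → F) (c : F), IsClassFun z →
    (Nat.card Γ : ℤ) * m ∣ Lsum (⊤ : Subgroup Γ) ⊤ z c - Wsum p red (⊤ : Subgroup Γ) ⊤ z c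

section one

variable {Γ : Type} [Group Γ] [Finite Γ] {m : ℤ}

/-- the difference of the two sides for a subgroup -/
theorem lw_dvd {z : Γ → F} (hz : IsClassFun z) (c : F) (H : Subgroup Γ)
    (h : Mr p red m H) :
    (Nat.card H : ℤ) * m ∣ Lsum ⊤ H (cut z H) c - Wsum p red ⊤ H z c := by
  rw [parts.trl F Γ ⊤ H (cut z H) c (top_sup_eq H),
    Pool.Agent.Y624.NV.trn p F red Γ ⊤ H z c (top_sup_eq H) (fun h _ x => hz h x),
    Subgroup.top_subgroupOf]
  have e1 : (fun x : H => cut z H x) = fun x : H => z x := by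
    funext x
    unfold cut
    rw [if_pos x.2]
  rw [e1]
  exact h (fun x : H => z x) c (fun g x => hz g x)

/-- quotients by normal `p`-subgroups -/
theorem mr_quot (M : Subgroup Γ) [M.Normal] (hM : IsPGroup p M) (h : Mr p red m (Γ ⧸ M)) :
    Mr p red m Γ := by
  intro z c hz
  have hz' : InZ (⊤ : Subgroup Γ) z := ⟨hz, fun x hx => absurd (Subgroup.mem_top x) hx⟩
  obtain ⟨h1, h2⟩ := parts.lq p F Γ ⊤ M z hM hz' c
  have h3 := parts.nq p F red Γ ⊤ M z hM hz' c
  rw [h2, h3]
  have e1 : (⊤ : Subgroup Γ).map (QuotientGroup.mk' M) = ⊤ :=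
    Subgroup.map_top_of_surjective _ (QuotientGroup.mk'_surjective M)
  rw [e1]
  rw [e1] at h1
  have h4 := h (push M z) c (fun g x => h1.conj g x)
  have e2 := Subgroup.card_eq_card_quotient_mul_card_subgroup M
  have e3 : (Nat.card Γ : ℤ) * m = (Nat.card M : ℤ) * ((Nat.card (Γ ⧸ M) : ℤ) * m) := by
    rw [e2]
    push_cast
    ring
  rw [e3, ← mul_sub]
  exact mul_dvd_mul_left _ h4

/-- the step from the stabilisers of the nonempty chains to the group -/
theorem mr_step (hF : S_FWDM) (hL : S_LCONJ) (hW : S_WCONJ)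
    (hrad : ∀ M : Subgroup Γ, M.Normal → IsPGroup p M → M = ⊥) (hm : m ≠ 0)
    (hB : ∀ B : (Γ → F) → F, IsBlock B → numDzBlock p red B = 0 → m ∣ Kr p red B)
    (hs : ∀ σ : Set (Subgroup Γ), IsPChain p σ → σ.Nonempty →
      Mr p red m (chainStabilizer σ)) : Mr p red m Γ := by
  intro z c hz
  have hB' : ∀ B : (Γ → F) → F, IsBlock B →
      m ∣ alternatingSum p Γ (fun H => (numIrrInd red H B : ℤ)) - numDzBlock p red B := by
    intro B hBl
    by_cases h0 : numDzBlock p red B = 0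
    · rw [h0, Nat.cast_zero, sub_zero]
      exact hB B hBl h0
    · have h1 : ∃ χ : Γ → ℂ, IsWt p (⊥ : Subgroup Γ) χ ∧
          ∀ f : Γ → F, IsClassFun f → centralValue red χ f = B f := by
        by_contra h1
        apply h0
        unfold numDzBlock
        rw [Nat.card_eq_zero]
        left
        exact ⟨fun χ => h1 ⟨χ.1, χ.2⟩⟩
      obtain ⟨χ, hχ, hχB⟩ := h1
      have := Fintype.ofFinite Γ
      rw [Pool.Agent.R674.KB.dz_alt red hχB hχ, sub_self]
      exact dvd_zero _
  have h1 := hF p F red Γ m Pool.Agent.R674.KB.kblk hB' z c hz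
  rw [ksum_sub Pool.Agent.R674.KB.kdimh Pool.Agent.R674.KB.kfilt red hz c] at h1
  let D : Subgroup Γ → ℤ := fun H => Lsum ⊤ H (cut z H) c - Wsum p red ⊤ H z c
  let f : Subgroup Γ → ℤ := fun H => if H = ⊤ then 0 else D H / ((Nat.card H : ℤ) * m)
  have hf : ∀ (g : Γ) (H : Subgroup Γ), f (conjSub g H) = f H := by
    intro g H
    have e1 : conjSub g H = ⊤ ↔ H = ⊤ := by
      constructor
      · intro h
        rw [← Pool.Agent.Y63.KR.conjSub_inv_conjSub g H, h]
        exact Subgroup.map_top_of_surjective _ (MulAut.conj g⁻¹).surjective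
      · rintro rfl
        exact Subgroup.map_top_of_surjective _ (MulAut.conj g).surjective
    have e2 : Nat.card (conjSub g H) = Nat.card H :=
      (Nat.card_congr ((MulAut.conj g).subgroupMap H).toEquiv).symm
    have e3 : D (conjSub g H) = D H := by
      change Lsum ⊤ (conjSub g H) (cut z (conjSub g H)) c - Wsum p red ⊤ (conjSub g H) z c = _
      rw [hL F Γ z c hz g H, hW p F red Γ z c hz g H]
    change (if conjSub g H = ⊤ then 0 else D (conjSub g H) / ((Nat.card (conjSub g H) : ℤ) * m)) =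
      if H = ⊤ then 0 else D H / ((Nat.card H : ℤ) * m)
    rw [e2, e3]
    by_cases h : H = ⊤
    · rw [if_pos h, if_pos (e1.2 h)]
    · rw [if_neg h, if_neg (fun h' => h (e1.1 h'))]
  have h3 := Pool.Agent.Y171.NV.card_mul_alt (p := p) f hf
  have h4 : ∀ σ : Set (Subgroup Γ), IsPChain p σ → σ.Nonempty →
      D (chainStabilizer σ) = m * ((Nat.card (chainStabilizer σ) : ℤ) *
        f (chainStabilizer σ)) := by
    intro σ hσ hne
    have h5 := lw_dvd red hz c _ (hs σ hσ hne)
    have h6 := stab_lt hrad hσ hne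
    have h7 : chainStabilizer σ ≠ ⊤ := by
      intro h
      rw [h, Subgroup.card_top] at h6
      exact lt_irrefl _ h6
    have h8 : f (chainStabilizer σ) =
        D (chainStabilizer σ) / ((Nat.card (chainStabilizer σ) : ℤ) * m) := if_neg h7
    have h9 : ((Nat.card (chainStabilizer σ) : ℤ) * m) ∣ D (chainStabilizer σ) := h5
    rw [h8]
    have h10 := Int.mul_ediv_cancel' h9
    calc D (chainStabilizer σ) = ((Nat.card (chainStabilizer σ) : ℤ) * m) *
          (D (chainStabilizer σ) / ((Nat.card (chainStabilizer σ) : ℤ) * m)) := h10.symm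
      _ = _ := by ring
  have : Fintype {σ : Set (Subgroup Γ) // IsPChain p σ} := Fintype.ofFinite _
  rw [finsum_eq_sum_of_fintype] at h1 h3
  have h5 : ∑ σ : {σ : Set (Subgroup Γ) // IsPChain p σ}, (-1) ^ σ.1.ncard *
      D (chainStabilizer σ.1) = D ⊤ + m * ∑ σ : {σ : Set (Subgroup Γ) // IsPChain p σ},
        (-1) ^ σ.1.ncard * ((Nat.card (chainStabilizer σ.1) : ℤ) * f (chainStabilizer σ.1)) := by
    rw [Finset.mul_sum, ← sub_eq_iff_eq_add, ← Finset.sum_sub_distrib,
      Finset.sum_eq_single (⟨∅, empty_chain⟩ : {σ : Set (Subgroup Γ) // IsPChain p σ})]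
    · simp only [Set.ncard_empty, pow_zero, one_mul]
      rw [chainStabilizer_empty]
      have h6 : f ⊤ = 0 := if_pos rfl
      rw [h6, mul_zero, mul_zero, sub_zero]
    · intro σ _ hσ
      have hne : σ.1.Nonempty := by
        rw [Set.nonempty_iff_ne_empty]
        intro h
        exact hσ (Subtype.ext h)
      rw [h4 σ.1 σ.2 hne]
      ring
    · intro h
      exact absurd (Finset.mem_univ _) h
  have h6 : (Nat.card Γ : ℤ) * m ∣ D ⊤ + m * ((Nat.card Γ : ℤ) * alternatingSum p Γ f) := by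
    rw [h3, ← h5]
    exact h1
  have h7 : (Nat.card Γ : ℤ) * m ∣ m * ((Nat.card Γ : ℤ) * alternatingSum p Γ f) :=
    ⟨alternatingSum p Γ f, by ring⟩
  have h8 : (Nat.card Γ : ℤ) * m ∣ D ⊤ := (dvd_add_left h7).1 h6
  have h9 : D ⊤ = Lsum (⊤ : Subgroup Γ) ⊤ z c - Wsum p red (⊤ : Subgroup Γ) ⊤ z c := by
    change Lsum ⊤ ⊤ (cut z ⊤) c - Wsum p red ⊤ ⊤ z c = _
    rw [cut_top]
  rw [← h9]
  exact h8

end one

variable {X : ∀ (G : Type) [Group G], Prop}

/-- **The congruence for all groups of the class.** -/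
theorem mr_all (hF : S_FWDM) (hL : S_LCONJ) (hW : S_WCONJ) (hX : Closed p X) {m : ℤ} (hm : m ≠ 0)
    (hB : ∀ (G : Type) [Group G] [Finite G], X G → ∀ B : (G → F) → F, IsBlock B →
      numDzBlock p red B = 0 → m ∣ Kr p red B) :
    ∀ (n : ℕ) (Γ : Type) [Group Γ] [Finite Γ], Nat.card Γ ≤ n → X Γ → Mr p red m Γ := by
  intro n
  induction n with
  | zero =>
    intro Γ _ _ hn
    have := Nat.card_pos (α := Γ)
    omega
  | succ n ih =>
    intro Γ _ _ hn hΓ
    by_cases hM : ∃ M : Subgroup Γ, M.Normal ∧ IsPGroup p M ∧ M ≠ ⊥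
    · obtain ⟨M, hMn, hMp, hM1⟩ := hM
      refine mr_quot red M hMp (ih (Γ ⧸ M) ?_ (hX.quot Γ hΓ M hMp))
      have e1 := Subgroup.card_eq_card_quotient_mul_card_subgroup M
      have e2 : 1 < Nat.card M := (Subgroup.one_lt_card_iff_ne_bot M).mpr hM1
      have e3 : 0 < Nat.card (Γ ⧸ M) := Nat.card_pos
      by_contra hlt
      push Not at hlt
      have : Nat.card (Γ ⧸ M) * 2 ≤ Nat.card Γ := by
        rw [e1]
        exact Nat.mul_le_mul_left _ e2
      omega
    · have hrad : ∀ M : Subgroup Γ, M.Normal → IsPGroup p M → M = ⊥ := by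
        intro M h1 h2
        by_contra h3
        exact hM ⟨M, h1, h2, h3⟩
      refine mr_step red hF hL hW hrad hm (hB Γ hΓ) fun σ hσ hne => ?_
      refine ih (chainStabilizer σ) ?_ (hX.sub Γ hΓ _)
      have := stab_lt hrad hσ hne
      omega

/-- from the class functions to the blocks -/
theorem cong_of {G : Type} [Group G] [Finite G] {r : ℕ} (h : Mr p red (r : ℤ) G)
    {B : (G → F) → F} (hB : IsBlock B) : numIrrBlock B ≡ numWts p red B [MOD r] := by
  obtain ⟨e, he, h1, h2⟩ := Pool.Agent.P8H88.DL.sumc p F red G B hB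
  have h3 := h e 1 he.cl
  have h4 : Lsum (⊤ : Subgroup G) ⊤ e 1 = (Nat.card G : ℤ) * numIrrBlock B := by
    unfold Lsum
    rw [if_pos (top_sup_eq _), inf_top_eq, h1, Subgroup.card_top]
  rw [h4, h2, ← mul_sub] at h3
  have hG : (Nat.card G : ℤ) ≠ 0 := by exact_mod_cast Nat.card_pos.ne'
  have h5 : (r : ℤ) ∣ (numIrrBlock B : ℤ) - numWts p red B :=
    (mul_dvd_mul_iff_left hG).1 h3
  exact (Nat.modEq_iff_dvd.2 h5).symm

variable {S : Type} [Group S] [Finite S] [IsSimpleGroup S]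

/-- **The weight conjecture and the alternating sums modulo a prime.** -/
theorem main_r (hF : S_FWDM) (hL : S_LCONJ) (hW : S_WCONJ) (hX : Closed p X) (hE : Ecl X)
    {s t : S} (hst : s * t ≠ t * s) (hS : X S) (r : ℕ) [hr : Fact r.Prime]
    (hXr : X (Multiplicative (ZMod r))) :
    (∀ (Γ : Type) [Group Γ] [Finite Γ] (G : Subgroup Γ) [G.Normal], X G → IsPGroup p (Γ ⧸ G) →
      BAWC p red Γ) ↔
    ∀ (G : Type) [Group G] (B : (G → F) → F), PF p red X S G B → (r : ℤ) ∣ Kr p red B := by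
  constructor
  · intro h G _ B hB
    have := hB.2.1
    rw [(Pool.Agent.P8H58.AW.awc_iff red hX).1 h G hB.1 B hB.2.2.2.2.1 hB.2.2.2.2.2]
    exact dvd_zero _
  · intro h
    obtain ⟨O, hO⟩ := Pool.Agent.P8H58.AW.exists_O red
    have hpO : (p : ℂ) ∈ O.nonunits := Pool.Agent.P8H58.AW.p_nonunit red hO p
    have h1 : ∀ (G : Type) [Group G] [Finite G], X G → ∀ B : (G → F) → F, IsBlock B →
        numDzBlock p red B = 0 → (r : ℤ) ∣ Kr p red B := by
      intro G _ _ hG B hB h0
      obtain ⟨B', h1, h2⟩ := Pool.Agent.P8H58.AW.of_block red hO hB h0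
      obtain ⟨Γ, i, B'', h3, h4⟩ :=
        Pool.Agent.P8H58.AW.K_to_PX (S := S) hpO hE hst hS G hG B' h1
      obtain ⟨B''', h5, h6⟩ := Pool.Agent.P8H58.AW.to_block red hO h3
      rw [← h2, ← h4, ← h6]
      exact h Γ B''' h5
    have key : ∀ (G : Type) [Group G] [Finite G], X G → ∀ B : (G → F) → F, IsBlock B →
        numIrrBlock B ≡ numWts p red B [MOD r] := fun G _ _ hG B hB =>
      cong_of red (mr_all red hF hL hW hX (m := (r : ℤ)) (by exact_mod_cast hr.out.ne_zero) h1
        (Nat.card G) G le_rfl hG) hB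
    refine (Pool.Agent.P8H58.DL.awc_top red hX).2 ?_
    by_cases hrp : r = p
    · subst hrp
      exact (bawc_cong r F red X fun H _ _ hH =>
        Pool.Agent.P8H58.DL.wr_mem hE hXr H hH).1.2 key
    · intro G _ _ hG
      exact Pool.Agent.P8H58.DL.of_mod_r red Pool.Agent.P8H62.DL.Lpr.lpr
        Pool.Agent.P8H62.DL.Wrl.wrl Pool.Agent.P8H84.DL.wpr Pool.Agent.P8H62.DL.Wrw.wrw
        Pool.Agent.P8H88.DL.sumb Pool.Agent.P8H88.DL.sumc r hrp
        (fun H _ _ hH => Pool.Agent.P8H58.DL.wr_mem hE hXr H hH) key G hG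

end Pool.Agent.P8H58.KM
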