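import Pool.Agent.P8H58.KM.Asm
import Pool.Agent.P8H21.KM.Fwdm
import Pool.Agent.P8H84.KM.Lconj
import Pool.Agent.P8H37.KM.Wconj

/-!
# Project KM: the weight conjecture and the alternating sums modulo a prime

Parts of the proof: `Pool/Agent/P8H21/KM` (helper21), `P8H84/KM` (helper84), `P8H37/KM` (helper37).
-/

set_option autoImplicit false

noncomputable section

namespace Pool.Agent.P8H58.KM

open Pool.Agent.Y63.NV
open Pool.Agent.P8H58.AW (Kr PF)
open Pool.Agent.P8H58.FR (Ecl TopS)

/-- **The weight conjecture and the alternating sums modulo a prime.** -/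
theorem main {p : ℕ} [hp : Fact p.Prime] {F : Type} [Field F] [IsAlgClosed F] [CharP F p]
    (red : integralClosure ℤ ℂ →+* F) {X : ∀ (G : Type) [Group G], Prop}
    {S : Type} [Group S] [Finite S] [IsSimpleGroup S] (hX : Closed p X) (hE : Ecl X)
    {s t : S} (hst : s * t ≠ t * s) (hS : X S) (r : ℕ) [hr : Fact r.Prime]
    (hXr : X (Multiplicative (ZMod r))) :
    (∀ (Γ : Type) [Group Γ] [Finite Γ] (G : Subgroup Γ) [G.Normal], X G → IsPGroup p (Γ ⧸ G) →
      BAWC p red Γ) ↔
    ∀ (G : Type) [Group G] (B : (G → F) → F), PF p red X S G B → (r : ℤ) ∣ Kr p red B :=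
  main_r red Pool.Agent.P8H21.KM.fwdm Pool.Agent.P8H84.KM.lconj Pool.Agent.P8H37.KM.wconj hX hE hst
    hS r hXr

end Pool.Agent.P8H58.KM
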