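import Pool.Agent.P8H58.KM.Fin
import Pool.Agent.P8H58.DS.Spl

/-!
# Project KM: large split extensions
-/

set_option autoImplicit false
set_option linter.unusedSectionVars false

open scoped Classical

noncomputable section

namespace Pool.Agent.P8H58.KM

open Pool.Agent.Y63.NV
open Pool.Agent.P8H58.AW (Kr PF)
open Pool.Agent.P8H58.FR (Ecl TopS)
open Pool.Agent.Q90.WR (GoodB AdmB blkAlt blkP blkP_coeff blkP_eval)
open Pool.Agent.P8H58.DS (SG PS)

variable {p : ℕ} [hp : Fact p.Prime] {S : Type} [Group S] [Finite S] [IsSimpleGroup S]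
  {X : ∀ (G : Type) [Group G], Prop}

/-- the transfer to large split extensions -/
theorem K_to_PS {O : ValuationSubring ℂ} (hpO : (p : ℂ) ∈ O.nonunits) (hX : Ecl X)
    {s t : S} (hst : s * t ≠ t * s) (hS : X S) {q : ℕ} (hq : q.Prime) (hqp : q ≠ p)
    (hqS : q ∣ Nat.card S) (n : ℕ) (G : Type) [Group G] [Finite G] (hG : X G)
    (B : Set (G → ℂ)) (hB : GoodB O B) :
    ∃ (Γ : Type) (i : Group Γ) (B' : Set (Γ → ℂ)), PS p O X S q Γ i B' ∧ n < Nat.card Γ ∧
      blkAlt p O B' = blkAlt p O B := by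
  obtain ⟨Γ, i, B', h1, h2, h3⟩ := Pool.Agent.P8H58.DS.to_PS hpO hX hst hS hq hqp hqS n hG hB
  refine ⟨Γ, i, B', h1, h2, ?_⟩
  have := h1.2.fin
  have := Fintype.ofFinite Γ
  have := Fintype.ofFinite G
  have e1 : blkP p O B' = blkP p O B := by
    refine Polynomial.ext fun d => ?_
    rw [blkP_coeff, blkP_coeff, h3 d]
  have e2 := blkP_eval (p := p) (O := O) (B := B')
  rw [e1, blkP_eval] at e2
  exact_mod_cast e2.symm

/-- **The weight conjecture and the alternating sums of large split extensions modulo a prime.** -/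
theorem main_spl {F : Type} [Field F] [IsAlgClosed F] [CharP F p]
    (red : integralClosure ℤ ℂ →+* F) (hX : Closed p X) (hE : Ecl X)
    {s t : S} (hst : s * t ≠ t * s) (hS : X S) (r : ℕ) [hr : Fact r.Prime]
    (hXr : X (Multiplicative (ZMod r))) {q : ℕ} (hq : q.Prime) (hqp : q ≠ p)
    (hqS : q ∣ Nat.card S) (n : ℕ) :
    (∀ (Γ : Type) [Group Γ] [Finite Γ] (G : Subgroup Γ) [G.Normal], X G → IsPGroup p (Γ ⧸ G) →
      BAWC p red Γ) ↔
    ∀ (G : Type) [Group G] (B : (G → F) → F), PF p red X S G B → n < Nat.card G → SG X S q G →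
      (r : ℤ) ∣ Kr p red B := by
  rw [main red hX hE hst hS r hXr]
  refine ⟨fun h G _ B hB _ _ => h G B hB, fun h G _ B hB => ?_⟩
  obtain ⟨O, hO⟩ := Pool.Agent.P8H58.AW.exists_O red
  have hpO : (p : ℂ) ∈ O.nonunits := Pool.Agent.P8H58.AW.p_nonunit red hO p
  have := hB.2.1
  obtain ⟨B', h1, h2⟩ := Pool.Agent.P8H58.AW.of_block red hO hB.2.2.2.2.1 hB.2.2.2.2.2
  obtain ⟨Γ, i, B'', h3, h4, h5⟩ := K_to_PS (S := S) hpO hE hst hS hq hqp hqS n G hB.1 B' h1
  obtain ⟨B''', h6, h7⟩ := Pool.Agent.P8H58.AW.to_block (S := S) red hO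
    (show Pool.Agent.P8H58.FR.PX p O X S Γ i B'' from ⟨h3.1.1, h3.1.2.2.1, h3.2⟩)
  rw [← h2, ← h5, ← h7]
  exact h Γ B''' h6 h4 h3.1

end Pool.Agent.P8H58.KM
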