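import Pool.Agent.Y171.NV.Kfin
import Pool.Agent.Y63.NV.Kalt
import Pool.Agent.Y210.NV2.TRL
import Pool.Agent.Y624.NV.Trn

/-!
# Project KM: the alternating sums of Knörr and Robinson modulo an integer. Statements of the parts.
-/

set_option autoImplicit false

open scoped Classical

noncomputable section

namespace Pool.Agent.P8H58.KM

open Pool.Agent.Y63.NV
open Pool.Agent.Y63.KR (IsPChain chainStabilizer alternatingSum conjSub)

/-- FWDM (100 lines): from blocks to values of central characters, modulo an integer `m`. Copy of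
`Pool.Agent.Y171.NV.fwd` / `eqB_iff` / `kfin` in `Pool/Agent/Y171/NV/Kfin.lean` (`EqB` replaced by the
divisibility of the difference by `|G| m`; `S_KBLK` holds: `Pool.Agent.R674.KB.kblk`). -/
def S_FWDM : Prop := ∀ (p : ℕ) [Fact p.Prime] (F : Type) [Field F] [IsAlgClosed F] [CharP F p]
  (red : integralClosure ℤ ℂ →+* F) (G : Type) [Group G] [Finite G] (m : ℤ), S_KBLK →
    (∀ B : (G → F) → F, IsBlock B →
      m ∣ alternatingSum p G (fun H => (numIrrInd red H B : ℤ)) - numDzBlock p red B) →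
    ∀ (z : G → F) (c : F), IsClassFun z →
      (Nat.card G : ℤ) * m ∣
      (∑ᶠ σ : {σ : Set (Subgroup G) // IsPChain p σ}, (-1) ^ σ.1.ncard *
        ((Nat.card (chainStabilizer σ.1) : ℤ) *
          Knum red (fun x : chainStabilizer σ.1 => z x) c)) -
      (Nat.card G : ℤ) * Nw p red (⊥ : Subgroup G) z c

/-- LCONJ (40 lines): conjugation invariance. Use `Pool.Agent.Y210.NV2.lnum_congr` with the isomorphism
`x ↦ g x g⁻¹` from `⊤ ⊓ H` to `⊤ ⊓ conjSub g H`. -/
def S_LCONJ : Prop := ∀ (F : Type) [Field F] (Γ : Type) [Group Γ] [Finite Γ] (z : Γ → F) (c : F),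
  IsClassFun z → ∀ (g : Γ) (H : Subgroup Γ),
    Lsum ⊤ (conjSub g H) (cut z (conjSub g H)) c = Lsum ⊤ H (cut z H) c

/-- WCONJ (70 lines): conjugation invariance. Reindex the sum by `Q ↦ conjSub g Q`, then
`Pool.Agent.Y624.NV.nw_congr` with the isomorphism `x ↦ g x g⁻¹` from `H ⊓ N(Q)` to
`conjSub g H ⊓ N(conjSub g Q)`. -/
def S_WCONJ : Prop := ∀ (p : ℕ) (F : Type) [Field F] (red : integralClosure ℤ ℂ →+* F) (Γ : Type)
  [Group Γ] [Finite Γ] (z : Γ → F) (c : F), IsClassFun z → ∀ (g : Γ) (H : Subgroup Γ),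
    Wsum p red ⊤ (conjSub g H) z c = Wsum p red ⊤ H z c

end Pool.Agent.P8H58.KM
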